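import Pool.Agent.H.MP_f2e062_co.Lo

set_option autoImplicit false

namespace Pool.Agent.Results.MP_f2e062_co.FiveSix

open Pool.Agent.H.MP_f2e062_co

/-- Player 1 has no strategy for `c ≤ 4` and has one for every `c ≥ 6`; so `c*` is 5 or 6. -/
theorem result : (∀ c : ℕ, c ≤ 4 → ¬ HasStrategy c) ∧ (∀ c : ℕ, 6 ≤ c → HasStrategy c) :=
  ⟨fun _ h => lower h, fun _ h => upper h⟩

end Pool.Agent.Results.MP_f2e062_co.FiveSix
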